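import Pool.Agent.W927.LclPos
import Pool.Agent.W927.LclNeg

/-!
A locally checkable labelling problem with measurable and Baire measurable solutions but without
Borel solutions on the shift graph of `ℤ^d`.
-/

namespace Pool.Agent.Results.MP_eb515b_lc.MeasurableBaireNotBorel

open Pool.Agent.W927

/-- For every `d ≥ 2` there is a locally checkable labelling problem with measurable solutions and
with Baire measurable solutions on the shift graph of `ℤ^d`, but without Borel solutions. -/
theorem result (d : ℕ) (hd : 2 ≤ d) :
    ∃ L : LCL, L.MeasurableSol d ∧ L.BaireSol d ∧ ¬ L.BorelSol d := by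
  classical
  obtain ⟨N, κ, hκm, hκ⟩ := exists_nbr_colouring d
  let e : Fin (Fintype.card (LabG N d)) ≃ LabG N d := (Fintype.equivFin (LabG N d)).symm
  let i0 : Fin d := ⟨0, by omega⟩
  let i1 : Fin d := ⟨1, by omega⟩
  have h01 : i0 ≠ i1 := by
    intro h
    have := congrArg Fin.val h
    simp [i0, i1] at this
  exact ⟨PB_ N d i0 i1 e, measurableSol h01 hκm hκ, baireSol h01 hκm hκ, no_borelSol⟩

end Pool.Agent.Results.MP_eb515b_lc.MeasurableBaireNotBorel
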